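import Pool.Agent.Y179.SD.P2

/-!
The projective plane is a klt Fano variety whose special degenerations have central fibres that do
not lie in any bounded family.

Proof: for all consecutive terms `a, b` of `1, 2, 5, 13, 34, …` the weighted projective plane
`ℙ(1, a², b²)` is a special degeneration of `ℙ²`. Let `z₁, z₂` and `Z` be the coordinates of `ℙ²`, let
`c = z₁ z₂ Z - z₁³ - z₂³` (a nodal cubic), and let `z_n z_{n+2} = z_{n+1}³ + c^(E_{n+1})`. The degeneration is
given by the monomial valuation with weights `1, 1, 0` in the coordinates `z_s, z_{s+1}, c` of the
cone. The expansions in the three seeds `s - 1, s, s + 1` (Laurent phenomenon) bound the lowest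
terms, and a count of dimensions shows that all monomials of the toric ring occur. The embedding
dimension of `ℙ(1, a², b²)` at a torus fixed point is unbounded, so that these surfaces do not
embed in a fixed projective space.
-/

noncomputable section

namespace Pool.Agent.Results.MP_ba5bc1_ag.UnboundedDegenerations

open Pool.Agent.Helper774.KSing Pool.Agent.Y179.SD

/-- There is a klt Fano variety `X`, namely the projective plane, such that the set of the central
fibres of the special degenerations of `X` is not bounded. -/
theorem result : ∃ X : Variety, X.IsFano ∧ X.IsKlt ∧
    IsProj X (⊥ : Ideal (MvPolynomial (Fin (2 + 1)) ℂ)) ∧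
    ¬ IsBounded {Y : Variety | IsSpecialDegeneration X Y} :=
  main'

end Pool.Agent.Results.MP_ba5bc1_ag.UnboundedDegenerations
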